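import Pool.Agent.H.MP_e7c909_al.Defs

set_option autoImplicit false
set_option backward.isDefEq.respectTransparency false

namespace Pool.Agent.H.MP_e7c909_al

open CategoryTheory Limits HomologicalComplex DerivedCategory

variable {R : Type} [CommRing R] {ι : Type}

/-- a family of complexes as a complex of families -/
def K (F : Discrete ι ⥤ CochainComplex (ModuleCat.{0} R) ℤ) :
    CochainComplex (Discrete ι ⥤ ModuleCat.{0} R) ℤ where
  X n := F ⋙ eval _ _ n
  d n m := ⟨fun j => (F.obj j).d n m, fun _ _ f => (F.map f).comm n m⟩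
  shape n m h := by ext j : 2; exact (F.obj j).shape _ _ h
  d_comp_d' n m k _ _ := by ext j : 2; exact (F.obj j).d_comp_d _ _ _

theorem qis {F F' : Discrete ι ⥤ CochainComplex (ModuleCat.{0} R) ℤ} (α : F' ⟶ F)
    (h : ∀ j, QuasiIso (α.app j)) : ∃ t : (coconeOfHasColimitEval F').pt ⟶
      (coconeOfHasColimitEval F).pt, QuasiIso t ∧ ∀ j, (coconeOfHasColimitEval F').ι.app j ≫ t =
        α.app j ≫ (coconeOfHasColimitEval F).ι.app j := by
  let β : K F' ⟶ K F := ⟨fun n => Functor.whiskerRight α (eval _ _ n), fun n m _ => by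
    ext j : 2; exact (α.app j).comm n m⟩
  have : QuasiIso β := (quasiIso_iff_evaluation β).mpr fun j => h j
  have : (colim (J := Discrete ι) (C := ModuleCat.{0} R)).PreservesHomology := inferInstance
  refine ⟨(colim.mapHomologicalComplex _).map β, quasiIso_map_of_preservesHomology _ _, fun j => ?_⟩
  ext n : 1
  exact ι_colimMap (β.f n) j

theorem htpy {F : Discrete ι ⥤ CochainComplex (ModuleCat.{0} R) ℤ} {c : Cocone F} (hc : IsColimit c)
    {Y} {g : c.pt ⟶ Y} (H : ∀ j, Homotopy (c.ι.app j ≫ g) 0) : Nonempty (Homotopy g 0) := by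
  have h1 := fun n => isColimitOfPreserves (eval _ _ n) hc
  have h2 : ∀ n m, ∃ h : c.pt.X n ⟶ Y.X m, ∀ j, (c.ι.app j).f n ≫ h = (H j).hom n m := fun n m =>
    ⟨_, (h1 n).fac ⟨_, Discrete.natTrans fun j => (H j).hom n m⟩⟩
  choose h h2 using h2
  have h3 : ∀ n Z (a b : c.pt.X n ⟶ Z), (∀ j, (c.ι.app j).f n ≫ a = (c.ι.app j).f n ≫ b) → a = b :=
    fun n Z a b => (h1 n).hom_ext
  exact ⟨⟨h, fun n m hn => h3 _ _ _ _ fun j => by rw [h2, comp_zero, (H j).zero n m hn],
    fun n => h3 _ _ _ _ fun j => by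
      have a1 := dNext_comp_left (c.ι.app j) h n
      have a2 := prevD_comp_left (c.ι.app j) h n
      simp only [h2] at a1 a2
      rw [Preadditive.comp_add, Preadditive.comp_add]
      erw [← a1, ← a2]
      simpa using (H j).comm n⟩⟩

variable [HasDerivedCategory.{1} (ModuleCat.{0} R)]

theorem pres (F : Discrete ι ⥤ CochainComplex (ModuleCat.{0} R) ℤ) : PreservesColimit F Q := by
  have key : ∀ {Y} (f : Q.obj (coconeOfHasColimitEval F).pt ⟶ Q.obj Y),
      (∀ j, Q.map ((coconeOfHasColimitEval F).ι.app j) ≫ f = 0) → f = 0 := fun f hf => by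
    obtain ⟨Y', g, s, hs, rfl⟩ := left_fac f
    have h1 : ∀ j, ∃ (X : CochainComplex (ModuleCat.{0} R) ℤ) (t : X ⟶ F.obj j), QuasiIso t ∧
        Nonempty (Homotopy (t ≫ (coconeOfHasColimitEval F).ι.app j ≫ g) 0) := fun j => by
      have h2 := hf j
      rw [← Category.assoc, ← Q.map_comp, Preadditive.IsIso.comp_right_eq_zero] at h2
      obtain ⟨X, t, h3, h4⟩ := (MorphismProperty.map_eq_iff_precomp Qh
        (HomotopyCategory.quasiIso _ (.up ℤ)) ((HomotopyCategory.quotient _ _).map
          ((coconeOfHasColimitEval F).ι.app j ≫ g)) 0).mp (h2.trans (Qh.map_zero _ _).symm)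
      obtain ⟨X, rfl⟩ := HomotopyCategory.quotient_obj_surjective X
      obtain ⟨t, rfl⟩ := (HomotopyCategory.quotient _ _).map_surjective t
      refine ⟨X, t, (HomotopyCategory.quotient_map_mem_quasiIso_iff t).mp h3,
        ⟨HomotopyCategory.homotopyOfEq _ _ ?_⟩⟩
      rw [Functor.map_comp, h4, comp_zero, Functor.map_zero]
    choose X t h2 h3 using h1
    obtain ⟨T, h4, h5⟩ := qis (F' := Discrete.functor fun i => X ⟨i⟩) (F := F)
      (Discrete.natTrans fun j => t j) h2
    obtain ⟨h6⟩ := htpy (isColimitCoconeOfHasColimitEval _) (g := T ≫ g) fun j => by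
      rw [← Category.assoc, h5, Category.assoc]; exact (h3 j).some
    have h7 : Q.map T ≫ Q.map g = 0 := by
      rw [← Q.map_comp, Q_map_eq_of_homotopy _ h6, Functor.map_zero]
    rw [(Preadditive.IsIso.comp_left_eq_zero _ _).mp h7, zero_comp]
  refine preservesColimit_of_preserves_colimit_cocone (isColimitCoconeOfHasColimitEval F)
    (IsColimit.ofExistsUnique fun s => ?_)
  obtain ⟨Y, ⟨e⟩⟩ := Functor.EssSurj.mem_essImage Q s.pt
  choose X t h2 g h3 using fun j => right_fac (s.ι.app j ≫ e.inv)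
  obtain ⟨T, h4, h5⟩ := qis (F' := Discrete.functor fun i => X ⟨i⟩) (F := F)
    (Discrete.natTrans fun j => t j) fun j => (isIso_Q_map_iff_quasiIso _ _).mp (h2 j)
  obtain ⟨G, hG⟩ : ∃ G : _ ⟶ Y, ∀ j, (coconeOfHasColimitEval (Discrete.functor fun i => X ⟨i⟩)).ι.app j
      ≫ G = g j := ⟨_, (isColimitCoconeOfHasColimitEval (Discrete.functor fun i => X ⟨i⟩)).fac
        ⟨Y, Discrete.natTrans fun j => g j⟩⟩
  have h6 : ∀ j, Q.map ((coconeOfHasColimitEval F).ι.app j) ≫ inv (Q.map T) ≫ Q.map G ≫ e.hom =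
      s.ι.app j := fun j => by
    rw [← cancel_mono e.inv, h3, ← cancel_epi (Q.map (t j)), ← hG]
    have := congrArg Q.map (h5 j)
    simp only [Functor.map_comp, Discrete.natTrans_app] at this
    simp [← reassoc_of% this]
  refine ⟨inv (Q.map T) ≫ Q.map G ≫ e.hom, h6, fun d hd => ?_⟩
  rw [← sub_eq_zero, ← Preadditive.IsIso.comp_right_eq_zero _ e.inv]
  refine key _ fun j => ?_
  rw [← Category.assoc, Preadditive.comp_sub, h6]
  erw [hd j]
  rw [sub_self, zero_comp]

open DirectSum in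
/-- closure properties of a class of modules -/
structure Cl (G : ModuleCat.{0} R → Prop) : Prop where
  ses : ∀ {A B C : Type} [AddCommGroup A] [Module R A] [AddCommGroup B] [Module R B]
    [AddCommGroup C] [Module R C] (f : A →ₗ[R] B) (g : B →ₗ[R] C), Function.Injective f →
    Function.Exact f g → Function.Surjective g → (G (.of R B) → G (.of R C) → G (.of R A)) ∧
      (G (.of R A) → G (.of R C) → G (.of R B)) ∧ (G (.of R A) → G (.of R B) → G (.of R C))
  iso : ∀ {A B : Type} [AddCommGroup A] [Module R A] [AddCommGroup B] [Module R B]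
    (_ : A ≃ₗ[R] B), G (.of R A) → G (.of R B)
  sum : ∀ {ι : Type} (M : ι → Type) [∀ i, AddCommGroup (M i)] [∀ i, Module R (M i)],
    (∀ i, G (.of R (M i))) → G (.of R (⨁ i, M i))

theorem cl {P : ObjectProperty (D R)} (hP : Localizing R P) :
    Cl fun M : ModuleCat.{0} R => P ((singleFunctor _ 0).obj M) := by
  obtain ⟨h1, h2, h3⟩ := hP
  refine ⟨fun f g a1 a2 a3 => ?_, fun e => P.prop_of_iso ((singleFunctor _ 0).mapIso e.toModuleIso),
    fun M _ _ hM => ?_⟩
  · have h := (ModuleCat.shortComplex_shortExact (ShortComplex.moduleCatMk f g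
      a2.linearMap_comp_eq_zero) a2 a1 a3).singleTriangle_distinguished
    exact ⟨P.ext_of_isTriangulatedClosed₁ _ h, P.ext_of_isTriangulatedClosed₂ _ h,
      P.ext_of_isTriangulatedClosed₃ _ h⟩
  · classical
    have := pres (Discrete.functor (fun i => ModuleCat.of R (M i)) ⋙ single _ (.up ℤ) 0)
    have h := isColimitOfPreserves (single _ (.up ℤ) 0 ⋙ Q)
      (ModuleCat.coproductCoconeIsColimit fun i => ModuleCat.of R (M i))
    exact h3 _ _ _ ⟨(isColimitMapCoconeCofanMkEquiv _ _ _) h⟩ hM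

end Pool.Agent.H.MP_e7c909_al
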