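import Pool.Agent.H.MP_e7c909_al.A

set_option autoImplicit false

namespace Pool.Agent.H.MP_e7c909_al

open DirectSum Submodule

variable {R : Type} [CommRing R] {G : ModuleCat.{0} R → Prop} (hG : Cl G)
include hG

theorem chain {M : Type} [AddCommGroup M] [Module R M] (N : ℕ → Submodule R M) (hN : Monotone N)
    (hS : ∀ v, ∃ n, v ∈ N n) (h : ∀ n, G (.of R (N n))) : G (.of R M) := by
  let sh : (⨁ n, N n) →ₗ[R] ⨁ n, N n :=
    toModule R ℕ _ fun n => lof R ℕ (fun n => N n) (n + 1) ∘ₗ inclusion (hN n.le_succ)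
  let c : ℕ → (⨁ n, N n) →ₗ[R] M := fun n => (N n).subtype ∘ₗ component R ℕ _ n
  have c0 : c 0 ∘ₗ sh = 0 := linearMap_ext _ fun n => by
    ext; simp [c, sh, component.of]
  have c1 : ∀ k, c (k + 1) ∘ₗ sh = c k := fun k => linearMap_ext _ fun n => by
    ext; by_cases e : n = k
    · subst e; simp [c, sh]
    · simp [c, sh, component.of, e]
  have c2 : coeLinearMap N ∘ₗ (LinearMap.id - sh) = 0 := linearMap_ext _ fun n => by
    ext; simp [sh]
  have c3 : ∀ n m (e : n ≤ m) (y : N n), lof R ℕ (fun n => N n) n y -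
      lof R ℕ (fun n => N n) m (inclusion (hN e) y) ∈ LinearMap.range (LinearMap.id - sh) := by
    intro n m e y
    induction m, e using Nat.le_induction with
    | base => exact ⟨0, (map_zero _).trans (sub_self _).symm⟩
    | succ m e ih =>
      rw [← sub_add_sub_cancel _ (lof R ℕ (fun n => N n) m (inclusion (hN e) y))]
      exact add_mem ih ⟨lof R ℕ (fun n => N n) m (inclusion (hN e) y), by simp [sh]; rfl⟩
  have c4 : ∀ x, ∃ n, ∃ y : N n, x - lof R ℕ (fun n => N n) n y ∈
      LinearMap.range (LinearMap.id - sh) := fun x => by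
    induction x using DirectSum.induction_on with
    | zero => exact ⟨0, 0, by simp⟩
    | of n y => exact ⟨n, y, by simp [lof_eq_of]⟩
    | add x x' h h' =>
      obtain ⟨n, y, h⟩ := h
      obtain ⟨n', y', h'⟩ := h'
      refine ⟨max n n', inclusion (hN (le_max_left _ _)) y + inclusion (hN (le_max_right _ _)) y', ?_⟩
      have := add_mem (add_mem h h') (add_mem (c3 _ _ (le_max_left n n') y)
        (c3 _ _ (le_max_right n n') y'))
      rw [map_add]
      exact Eq.mp (congrArg _ (by abel)) this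
  refine (hG.ses (LinearMap.id - sh) (coeLinearMap N) ((injective_iff_map_eq_zero _).mpr fun y hy => ?_)
    (fun x => ⟨fun hx => ?_, ?_⟩) fun v => ?_).2.2 (hG.sum _ h) (hG.sum _ h)
  · have h1 : sh y = y := (sub_eq_zero.mp hy).symm
    have h2 : ∀ n, c n y = 0 := fun n => by
      induction n with
      | zero => rw [← h1]; exact LinearMap.congr_fun c0 y
      | succ n ih => rw [← h1, ← ih]; exact LinearMap.congr_fun (c1 n) y
    ext n
    exact h2 n
  · obtain ⟨n, y, z, hz⟩ := c4 x
    have h1 := LinearMap.congr_fun c2 z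
    rw [LinearMap.comp_apply, hz, map_sub, hx, coeLinearMap_lof] at h1
    obtain rfl : y = 0 := by simpa using h1
    exact ⟨z, by simpa using hz⟩
  · rintro ⟨z, rfl⟩
    exact LinearMap.congr_fun c2 z
  · obtain ⟨n, hn⟩ := hS v
    exact ⟨_, coeLinearMap_lof N n ⟨v, hn⟩⟩

variable {m : Ideal R} [m.IsMaximal] (hm : G (.of R m.ResidueField))
include hm

theorem k0 {M : Type} [AddCommGroup M] [Module R M] (hM : Module.IsTorsionBySet R M m) :
    G (.of R M) := by
  classical
  letI := hM.module
  letI := Ideal.Quotient.field m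
  exact hG.iso (((Module.Basis.ofVectorSpace (R ⧸ m) M).repr.restrictScalars R).trans
    (finsuppLEquivDirectSum R _ _)).symm (hG.sum _ fun _ => hG.iso (LinearEquiv.ofBijective
      ((Algebra.linearMap (R ⧸ m) m.ResidueField).restrictScalars R)
      m.bijective_algebraMap_quotient_residueField).symm hm)

theorem kn (n : ℕ) : ∀ {M : Type} [AddCommGroup M] [Module R M],
    Module.IsTorsionBySet R M (m ^ n : Ideal R) → G (.of R M) := by
  induction n with
  | zero => exact fun hM => k0 hG hm fun x a => @hM x ⟨a, by simp⟩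
  | succ n ih =>
    intro M _ _ hM
    refine (hG.ses _ _ (torsionBySet R M m).injective_subtype (LinearMap.exact_subtype_mkQ _)
      (mkQ_surjective _)).2.1 (k0 hG hm (torsionBySet_isTorsionBySet _)) (ih fun x a => ?_)
    obtain ⟨x, rfl⟩ := mkQ_surjective _ x
    refine (Quotient.mk_eq_zero _).mpr ((mem_torsionBySet_iff _ _).mpr fun b => ?_)
    exact (mul_smul _ _ _).symm.trans (@hM x ⟨b.1 * a.1, pow_succ' m n ▸ Ideal.mul_mem_mul b.2 a.2⟩)

theorem dom {p : Ideal R} [p.IsPrime] (hp : G (.of R p.ResidueField))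
    (h : ∀ b ∉ p, ∃ n, ∀ r ∈ m ^ n, ∃ s, r - s * b ∈ p) : G (.of R (R ⧸ p)) := by
  let f := (Algebra.linearMap (R ⧸ p) p.ResidueField).restrictScalars R
  refine (hG.ses f _ p.injective_algebraMap_quotient_residueField (LinearMap.exact_map_mkQ_range f)
    (mkQ_surjective _)).1 hp (chain hG (fun n => torsionBySet R _ (m ^ n : Ideal R))
      (fun i j e => torsionBySet_le_torsionBySet_pow i j e m) (fun v => ?_)
      fun n => kn hG hm n (torsionBySet_isTorsionBySet _))
  obtain ⟨z, rfl⟩ := mkQ_surjective _ v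
  obtain ⟨a, b, hb, rfl⟩ := IsFractionRing.div_surjective (R ⧸ p) z
  obtain ⟨b, rfl⟩ := Ideal.Quotient.mk_surjective b
  have h1 : b ∉ p := fun e => nonZeroDivisors.ne_zero hb (Ideal.Quotient.eq_zero_iff_mem.mpr e)
  obtain ⟨n, hn⟩ := h b h1
  refine ⟨n, (mem_torsionBySet_iff _ _).mpr fun r => (Quotient.mk_eq_zero _).mpr ?_⟩
  obtain ⟨s, hs⟩ := hn r r.2
  have h2 := Ideal.algebraMap_residueField_eq_zero.mpr hs
  have h3 : algebraMap R p.ResidueField b ≠ 0 := mt Ideal.algebraMap_residueField_eq_zero.mp h1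
  rw [map_sub, sub_eq_zero, map_mul] at h2
  refine ⟨s • a, ?_⟩
  change _ = r.1 • _
  rw [map_smul, Algebra.smul_def, Algebra.smul_def, h2, Ideal.algebraMap_quotient_residueField_mk]
  simp only [f, LinearMap.coe_restrictScalars, Algebra.linearMap_apply]
  field_simp

end Pool.Agent.H.MP_e7c909_al
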