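import Pool.Agent.H.MP_e7c909_al.B

set_option autoImplicit false

namespace Pool.Agent.H.MP_e7c909_al

open DirectSum PowerSeries

/-- sequences of power series with a common constant term, almost all of them constant -/
def T : Subring (ℕ → ℚ⟦X⟧) where
  carrier := {a | ∃ c : ℚ, (∀ i, constantCoeff (a i) = c) ∧ ∃ N, ∀ i ≥ N, a i = C c}
  mul_mem' := by
    rintro a b ⟨c, h1, N, h2⟩ ⟨d, h3, M, h4⟩
    exact ⟨c * d, by simp [h1, h3], max N M, fun i hi => by
      simp [h2 i (le_of_max_le_left hi), h4 i (le_of_max_le_right hi)]⟩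
  one_mem' := ⟨1, by simp, 0, by simp⟩
  add_mem' := by
    rintro a b ⟨c, h1, N, h2⟩ ⟨d, h3, M, h4⟩
    exact ⟨c + d, by simp [h1, h3], max N M, fun i hi => by
      simp [h2 i (le_of_max_le_left hi), h4 i (le_of_max_le_right hi)]⟩
  zero_mem' := ⟨0, by simp, 0, by simp⟩
  neg_mem' := by
    rintro a ⟨c, h1, N, h2⟩
    exact ⟨-c, by simp [h1], N, fun i hi => by simp [h2 i hi]⟩

/-- evaluation -/
noncomputable def ev (i : ℕ) : T →+* ℚ⟦X⟧ := (Pi.evalRingHom _ i).comp T.subtype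

/-- one-point sequences -/
noncomputable def sg (i : ℕ) (g : ℚ⟦X⟧) : T := ⟨Pi.single i (g * X), 0, fun j => by
  by_cases h : j = i <;> simp [Pi.single_apply, h], i + 1, fun j hj => by
    simp [Pi.single_apply, show j ≠ i by omega]⟩

theorem ev_sg (i j : ℕ) (g) : ev j (sg i g) = if j = i then g * X else 0 := Pi.single_apply _ _ _

theorem ev_surj (i : ℕ) : Function.Surjective (ev i) := fun g => by
  obtain ⟨h, hh⟩ : X ∣ g - C (constantCoeff g) := by simp [X_dvd_iff]
  refine ⟨⟨fun _ => C (constantCoeff g), _, by simp, 0, fun _ _ => rfl⟩ + sg i h, ?_⟩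
  rw [map_add, ev_sg, if_pos rfl, mul_comm, ← hh]
  simp [ev]

/-- the maximal ideal -/
noncomputable def mx : Ideal T := RingHom.ker ((constantCoeff (R := ℚ)).comp (ev 0))

instance mxMax : mx.IsMaximal :=
  RingHom.ker_isMaximal_of_surjective _ (constantCoeff_surj.comp (ev_surj 0))

theorem mem_mx {a : T} (h : a ∈ mx) : (∀ i, X ∣ ev i a) ∧ ∃ N, ∀ i ≥ N, ev i a = 0 := by
  obtain ⟨a, c, h1, N, h2⟩ := a
  obtain rfl : c = 0 := (h1 0).symm.trans h
  exact ⟨fun i => X_dvd_iff.mpr (h1 i), N, fun i hi => (h2 i hi).trans (map_zero _)⟩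

theorem ker_le (i : ℕ) : RingHom.ker (ev i) ≤ mx := fun ⟨_, _, h1, _⟩ ha =>
  (h1 0).trans ((h1 i).symm.trans ((congrArg constantCoeff ha).trans (map_zero _)))

theorem T_ext {a b : T} (h : ∀ i, ev i a = ev i b) : a = b := Subtype.ext (funext h)

instance kerPrime (i : ℕ) : (RingHom.ker (ev i)).IsPrime := RingHom.ker_isPrime _

theorem star {G : ModuleCat.{0} T → Prop} (hG : Cl G)
    (h : ∀ p : PrimeSpectrum T, G (.of T p.asIdeal.ResidueField)) : G (.of T T) := by
  have hm := h ⟨mx, inferInstance⟩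
  let Φ : (⨁ i, T ⧸ RingHom.ker (ev i)) →ₗ[T] T := toModule T ℕ T fun i =>
    Submodule.liftQ _ (LinearMap.toSpanSingleton T T (sg i 1)) fun a ha => T_ext fun j => by
      by_cases e : j = i <;> simp_all [ev_sg]
  have h1 : ∀ i a, Φ (lof T ℕ _ i (Ideal.Quotient.mk _ a)) = a * sg i 1 := fun i a =>
    toModule_lof T i _
  have h2 : ∀ y j, ev j (Φ y) = (ev j).kerLift (y j) * X := fun y j => by
    induction y using DirectSum.induction_on with
    | zero => simp
    | of i a =>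
      obtain ⟨a, rfl⟩ := Ideal.Quotient.mk_surjective a
      rw [← lof_eq_of T, h1, map_mul, ev_sg]
      by_cases e : j = i
      · subst e; simp
      · simp [e, lof_eq_of, of_eq_of_ne _ _ _ e]
    | add x y hx hy => simp [hx, hy, add_mul]
  refine (hG.ses Φ mx.mkQ ((injective_iff_map_eq_zero _).mpr fun y hy => ?_) (fun a => ?_)
    (Submodule.mkQ_surjective _)).2.1 (hG.sum _ fun i => dom hG hm (h ⟨_, kerPrime i⟩)
      fun b hb => ?_) (k0 hG hm (Module.isTorsionBySet_quotient_iff _ _ |>.mpr fun x r hr =>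
        mx.mul_mem_right _ hr))
  · ext j
    have := h2 y j
    rw [hy, map_zero, eq_comm, mul_eq_zero_iff_right X_ne_zero] at this
    exact (ev j).kerLift_injective (by simpa using this)
  · refine (Submodule.Quotient.mk_eq_zero _).trans ⟨fun ha => ?_, ?_⟩
    · obtain ⟨h3, N, h4⟩ := mem_mx ha
      clear ha
      induction N generalizing a with
      | zero => exact ⟨0, T_ext fun i => by simp [h4]⟩
      | succ N ih =>
        obtain ⟨g, hg⟩ := h3 N
        obtain ⟨s, rfl⟩ := ev_surj N g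
        obtain ⟨y, hy⟩ := ih (a - s * sg N 1) (fun i => by
          rw [map_sub, map_mul, ev_sg]; split_ifs <;> simp [h3, dvd_sub]) fun i hi => by
            rw [map_sub, map_mul, ev_sg]
            split_ifs with e
            · rw [e, hg]; ring
            · simpa using h4 i (by omega)
        exact ⟨y + lof T ℕ _ N (Ideal.Quotient.mk _ s), by rw [map_add, hy, h1, sub_add_cancel]⟩
    · rintro ⟨y, rfl⟩
      simp [mx, h2]
  · obtain ⟨n, u, hu⟩ := IsDiscreteValuationRing.associated_pow_irreducible hb X_irreducible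
    refine ⟨n, fun r hr => ?_⟩
    have h3 : X ^ n ∣ ev i r := by
      rw [← Ideal.mem_span_singleton, ← Ideal.span_singleton_pow]
      refine Ideal.pow_right_mono (I := mx.map (ev i)) (J := .span {X}) (Ideal.map_le_iff_le_comap.mpr fun a ha =>
        Ideal.mem_span_singleton.mpr ((mem_mx ha).1 i)) n ?_
      rw [← Ideal.map_pow]
      exact Ideal.mem_map_of_mem _ hr
    obtain ⟨g, hg⟩ := h3
    obtain ⟨s, hs⟩ := ev_surj i (u * g)
    exact ⟨s, by rw [RingHom.mem_ker, map_sub, map_mul, hs, hg, ← hu]; ring⟩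

theorem not_wn : ¬ WeaklyNoetherian (PrimeSpectrum T) := fun h => by
  obtain ⟨_, _, ⟨S, h1, rfl⟩, ⟨S', h2, rfl⟩, h3⟩ := h ⟨mx, inferInstance⟩
  obtain ⟨⟨Z, h4, h5⟩, h6⟩ := h3.subset rfl
  obtain ⟨t, ht⟩ := PrimeSpectrum.isCompact_isOpen_iff.mp ⟨(h1 Z h4).2, (h1 Z h4).1.isOpen_compl⟩
  obtain rfl := compl_injective ht
  choose! N hN using fun a (ha : a ∈ t) => (mem_mx (h5 ha)).2
  have h7 : (⟨_, kerPrime (t.sup N)⟩ : PrimeSpectrum T) ∈ ⋃₀ S ∩ (⋃₀ S')ᶜ :=
    ⟨⟨_, h4, fun a ha => hN a ha _ (Finset.le_sup (f := N) ha)⟩, fun ⟨Z', a1, a2⟩ => h6 ⟨Z', a1,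
      ((PrimeSpectrum.le_iff_specializes _ _).mp (ker_le _)).mem_closed
        (h2 Z' a1).1 a2⟩⟩
  have h8 := congrArg PrimeSpectrum.asIdeal (h3.superset h7)
  have h9 : sg (t.sup N) 1 ∈ RingHom.ker (ev (t.sup N)) := by
    rw [show RingHom.ker _ = mx from h8]; simp [mx, ev_sg, apply_ite]
  simp [ev_sg] at h9

end Pool.Agent.H.MP_e7c909_al
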