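import Mathlib

set_option autoImplicit false

namespace Pool.Agent.H.MP_e7c909_al

open CategoryTheory Limits

/-- A union of closed subsets with quasi-compact complement. -/
def Thomason {X : Type} [TopologicalSpace X] (Y : Set X) : Prop :=
  ∃ S : Set (Set X), (∀ Z ∈ S, IsClosed Z ∧ IsCompact Zᶜ) ∧ Y = ⋃₀ S

/-- Every point is weakly visible. -/
def WeaklyNoetherian (X : Type) [TopologicalSpace X] : Prop :=
  ∀ x : X, ∃ Y₁ Y₂ : Set X, Thomason Y₁ ∧ Thomason Y₂ ∧ {x} = Y₁ ∩ Y₂ᶜ

variable (R : Type) [CommRing R] [HasDerivedCategory.{1} (ModuleCat.{0} R)]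

/-- The unbounded derived category of `R`-modules. -/
abbrev D : Type 1 := DerivedCategory (ModuleCat.{0} R)

/-- An `R`-module placed in degree `0`. -/
noncomputable def deg0 (M : Type) [AddCommGroup M] [Module R M] : D R :=
  (DerivedCategory.singleFunctor (ModuleCat.{0} R) 0).obj (ModuleCat.of R M)

/-- Localizing subcategories: full triangulated subcategories, closed under isomorphisms and under
arbitrary direct sums. -/
def Localizing (P : ObjectProperty (D R)) : Prop :=
  P.IsTriangulated ∧ P.IsClosedUnderIsomorphisms ∧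
    ∀ (ι : Type) (X : ι → D R) (c : Cofan X), Nonempty (IsColimit c) → (∀ i, P (X i)) → P c.pt

/-- `R` lies in the smallest localizing subcategory containing all residue fields `κ(p)`. -/
def Star : Prop :=
  ∀ P : ObjectProperty (D R), Localizing R P →
    (∀ p : PrimeSpectrum R, P (deg0 R p.asIdeal.ResidueField)) → P (deg0 R R)

end Pool.Agent.H.MP_e7c909_al
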